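import Pool.Agent.W254.HP.Opt

/-!
# Multiplication of a finite dimensional space with linear forms in logarithms

Let `V` be an `N`-dimensional space of complex numbers over the field `ℚ̄` of algebraic numbers and
`Lt` the space of all linear forms in `1` and logarithms of algebraic numbers. The hyperplane case of
the linear subgroup theorem (Waldschmidt, Roy) says that the kernel of the multiplication
`V ⊗ Lt → ℂ` has dimension at most `N (N - 1)`. So it is contained in `V ⊗ U` for a subspace `U` of `Lt`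
of dimension at most `N ^ 2 (N - 1)`. We derive that a relation `∑ x_s l_s + c = b z` with `x_s, b, c`
in `V`, `b ≠ 0` and `z` in `Lt` forces all quotients `x_s / b` to be algebraic, as soon as the `l_s` are
linearly independent modulo `U` and `1`.
-/

set_option autoImplicit false

namespace Pool.Agent.X139.BT

open Module Finset
open Pool.Agent.H301R2.SSE (QB mem_QB Lt Lt_rep Lt_mul Lt_alg Lt_log Lt_one)
open Pool.Agent.W254.HP (hyperplane opt_indep)

/-- the kernel of the multiplication -/
noncomputable def Ker {N : ℕ} (v : Fin N → ℂ) : Submodule QB (Fin N → ℂ) where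
  carrier := {x | (∀ k, x k ∈ Lt) ∧ ∑ k, v k * x k = 0}
  zero_mem' := ⟨fun _ => Lt.zero_mem, by simp⟩
  add_mem' := by
    rintro x y ⟨hx, hx0⟩ ⟨hy, hy0⟩
    refine ⟨fun k => Lt.add_mem (hx k) (hy k), ?_⟩
    simp only [Pi.add_apply, mul_add, sum_add_distrib, hx0, hy0, add_zero]
  smul_mem' := by
    rintro c x ⟨hx, hx0⟩
    refine ⟨fun k => Lt.smul_mem c (hx k), ?_⟩
    have : ∑ k, v k * (c • x) k = (c : ℂ) * ∑ k, v k * x k := by
      rw [mul_sum]
      refine sum_congr rfl fun k _ => ?_
      rw [Pi.smul_apply, Algebra.smul_def]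
      change v k * ((c : ℂ) * x k) = _
      ring
    rw [this, hx0, mul_zero]

theorem rank_Ker {N : ℕ} (v : Fin N → ℂ) (hv : LinearIndependent QB v) :
    Module.rank QB (Ker v) ≤ (N * (N - 1) : ℕ) := by
  apply rank_le
  intro s hs
  let e := s.equivFin
  refine hyperplane N s.card v (fun i j => ((e.symm j : Ker v) : Fin N → ℂ) i) hv
    (fun i j => (e.symm j : Ker v).2.1 i) (fun j => (e.symm j : Ker v).2.2) ?_
  have h1 : LinearIndependent QB (fun i : s => ((i : Ker v) : Fin N → ℂ)) :=
    hs.map' (Ker v).subtype (Ker v).ker_subtype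
  exact h1.comp e.symm e.symm.injective

theorem finite_Ker {N : ℕ} (v : Fin N → ℂ) (hv : LinearIndependent QB v) :
    Module.Finite QB (Ker v) :=
  Module.finite_of_rank_eq_nat (n := (Module.rank QB (Ker v)).toNat) (by
    rw [Cardinal.cast_toNat_of_lt_aleph0]
    exact (rank_Ker v hv).trans_lt (Cardinal.natCast_lt_aleph0))

theorem finrank_Ker {N : ℕ} (v : Fin N → ℂ) (hv : LinearIndependent QB v) :
    finrank QB (Ker v) ≤ N * (N - 1) :=
  finrank_le_of_rank_le (rank_Ker v hv)

/-- the space of all coordinates of elements of the kernel -/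
noncomputable def coordMap {N : ℕ} (v : Fin N → ℂ) : (Fin N → Ker v) →ₗ[QB] ℂ where
  toFun z := ∑ k, (z k : Fin N → ℂ) k
  map_add' x y := by simp [sum_add_distrib]
  map_smul' c x := by simp [smul_sum]

noncomputable def U {N : ℕ} (v : Fin N → ℂ) : Submodule QB ℂ := LinearMap.range (coordMap v)

theorem mem_U {N : ℕ} {v : Fin N → ℂ} {x : Fin N → ℂ} (hx : x ∈ Ker v) (k : Fin N) : x k ∈ U v := by
  classical
  refine ⟨Pi.single k ⟨x, hx⟩, ?_⟩
  change ∑ j, ((Pi.single k (⟨x, hx⟩ : Ker v) : Fin N → Ker v) j : Fin N → ℂ) j = x k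
  rw [sum_eq_single k]
  · rw [Pi.single_eq_same]
  · intro j _ hj
    rw [Pi.single_eq_of_ne hj]
    rfl
  · intro h
    exact absurd (mem_univ k) h

theorem finite_U {N : ℕ} (v : Fin N → ℂ) (hv : LinearIndependent QB v) :
    Module.Finite QB (U v) := by
  haveI := finite_Ker v hv
  unfold U
  infer_instance

theorem finrank_U {N : ℕ} (v : Fin N → ℂ) (hv : LinearIndependent QB v) :
    finrank QB (U v) ≤ N ^ 2 * (N - 1) := by
  haveI := finite_Ker v hv
  have h1 : finrank QB (U v) ≤ finrank QB (Fin N → Ker v) := LinearMap.finrank_range_le _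
  have h2 : finrank QB (Fin N → Ker v) = N * finrank QB (Ker v) := by
    rw [Module.finrank_pi_fintype]
    simp
  have h3 := finrank_Ker v hv
  calc finrank QB (U v) ≤ N * finrank QB (Ker v) := by rw [← h2]; exact h1
    _ ≤ N * (N * (N - 1)) := Nat.mul_le_mul_left _ h3
    _ = N ^ 2 * (N - 1) := by ring

/-- selection of a subfamily which stays independent modulo `W` -/
theorem select {K M : Type*} [Field K] [AddCommGroup M] [Module K M] {ι : Type*} (l : ι → M)
    (hl : LinearIndependent K l) (W : Submodule K M) [FiniteDimensional K W] :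
    ∃ E : Finset ι, E.card ≤ finrank K W ∧
      LinearIndependent K (fun s : {s // s ∉ E} => W.mkQ (l s)) := by
  classical
  obtain ⟨κ, a, ha, hspan, hli⟩ := exists_linearIndependent' K (fun s => W.mkQ (l s))
  let T : Set ι := Set.range a
  let P : Submodule K M := Submodule.span K (l '' T)
  -- every finite set outside `T` is small
  have hbd : ∀ F : Finset ι, (∀ s ∈ F, s ∉ T) → F.card ≤ finrank K W := by
    intro F hF
    let φ : W →ₗ[K] (M ⧸ P) := P.mkQ.comp W.subtype
    have hmem : ∀ s, P.mkQ (l s) ∈ LinearMap.range φ := by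
      intro s
      have h1 : W.mkQ (l s) ∈ Submodule.span K (Set.range fun i => W.mkQ (l (a i))) := by
        have := hspan.symm ▸ (Submodule.subset_span ⟨s, rfl⟩ :
          W.mkQ (l s) ∈ Submodule.span K (Set.range fun s => W.mkQ (l s)))
        exact this
      have h2 : (Set.range fun i => W.mkQ (l (a i))) = W.mkQ '' (l '' T) := by
        ext y
        constructor
        · rintro ⟨i, rfl⟩
          exact ⟨l (a i), ⟨a i, ⟨i, rfl⟩, rfl⟩, rfl⟩
        · rintro ⟨_, ⟨_, ⟨i, rfl⟩, rfl⟩, rfl⟩
          exact ⟨i, rfl⟩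
      rw [h2, ← Submodule.map_span] at h1
      obtain ⟨p, hp, hpl⟩ := h1
      have h3 : l s - p ∈ W := by
        rw [← Submodule.ker_mkQ W, LinearMap.mem_ker, map_sub, hpl, sub_self]
      refine ⟨⟨l s - p, h3⟩, ?_⟩
      change P.mkQ (l s - p) = P.mkQ (l s)
      have h4 : P.mkQ p = 0 := by
        rw [← LinearMap.mem_ker, Submodule.ker_mkQ]
        exact hp
      rw [map_sub, h4, sub_zero]
    have hFli : LinearIndependent K (fun s : F => P.mkQ (l s)) := by
      have hdisj : Disjoint (Submodule.span K (l '' (F : Set ι))) (Submodule.span K (l '' T)) :=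
        hl.disjoint_span_image (by
          rw [Set.disjoint_left]
          intro s hs hT
          exact hF s hs hT)
      have h5 : LinearIndependent K (fun s : F => l s) := hl.comp _ Subtype.val_injective
      have h6 := h5.map (f := P.mkQ) (by
        rw [Submodule.ker_mkQ]
        have : Set.range (fun s : F => l s) = l '' (F : Set ι) := by
          ext y
          constructor
          · rintro ⟨s, rfl⟩; exact ⟨s, s.2, rfl⟩
          · rintro ⟨s, hs, rfl⟩; exact ⟨⟨s, hs⟩, rfl⟩
        rw [this]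
        exact hdisj)
      exact h6
    have h7 : LinearIndependent K (fun s : F => (⟨P.mkQ (l s), hmem s⟩ : LinearMap.range φ)) := by
      apply LinearIndependent.of_comp (LinearMap.range φ).subtype
      exact hFli
    have h8 := h7.fintype_card_le_finrank
    rw [Fintype.card_coe] at h8
    exact h8.trans (LinearMap.finrank_range_le φ)
  have hfin : (Tᶜ : Set ι).Finite := by
    by_contra hinf
    obtain ⟨s, hs, hcard⟩ := Set.Infinite.exists_subset_card_eq (s := Tᶜ) hinf (finrank K W + 1)
    have := hbd s (fun i hi => hs hi)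
    omega
  refine ⟨hfin.toFinset, hbd _ (fun s hs => hfin.mem_toFinset.mp hs), ?_⟩
  have hT : ∀ s : {s // s ∉ hfin.toFinset}, (s : ι) ∈ T := by
    intro s
    by_contra h
    exact s.2 (hfin.mem_toFinset.mpr h)
  choose f hf using hT
  have hfinj : Function.Injective f := by
    intro s t hst
    apply Subtype.ext
    rw [← hf s, ← hf t, hst]
  have h9 := hli.comp f hfinj
  have h10 : (fun s : {s // s ∉ hfin.toFinset} => W.mkQ (l s)) =
      (fun s => W.mkQ (l s)) ∘ a ∘ f := by
    funext s
    simp only [Function.comp_apply, hf s]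
  rw [h10]
  exact h9

/-- selection modulo `U ⊔ W0`, where the family is independent modulo `W0` -/
theorem select2 {K M : Type*} [Field K] [AddCommGroup M] [Module K M] {ι : Type*} (l : ι → M)
    (W0 W : Submodule K M) (hl : LinearIndependent K (fun s => W0.mkQ (l s)))
    [FiniteDimensional K W] :
    ∃ E : Finset ι, E.card + finrank K (W ⊓ W0 : Submodule K M) ≤ finrank K W ∧
      LinearIndependent K (fun s : {s // s ∉ E} => (W ⊔ W0).mkQ (l s)) := by
  classical
  obtain ⟨E, hE, hli⟩ := select (fun s => W0.mkQ (l s)) hl (W.map W0.mkQ)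
  refine ⟨E, ?_, ?_⟩
  · have h1 : finrank K (W.map W0.mkQ) + finrank K (W ⊓ W0 : Submodule K M) = finrank K W := by
      let f : W →ₗ[K] (M ⧸ W0) := W0.mkQ.comp W.subtype
      have h2 := LinearMap.finrank_range_add_finrank_ker f
      have h3 : LinearMap.range f = W.map W0.mkQ := by
        rw [LinearMap.range_comp, Submodule.range_subtype]
      have h4 : LinearMap.ker f = W0.comap W.subtype := by
        rw [LinearMap.ker_comp, Submodule.ker_mkQ]
      have h5 : finrank K (W0.comap W.subtype) = finrank K (W ⊓ W0 : Submodule K M) := by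
        have e := Submodule.comapSubtypeEquivOfLe (inf_le_left : W ⊓ W0 ≤ W)
        have h6 : W0.comap W.subtype = (W ⊓ W0).comap W.subtype := by
          ext x
          simp
        rw [← e.finrank_eq, h6]
      rw [h3, h4, h5] at h2
      exact h2
    omega
  · rw [linearIndependent_iff'] at hli ⊢
    intro S g hg
    apply hli S g
    have h1 : ∑ i ∈ S, g i • l i ∈ W ⊔ W0 := by
      rw [← Submodule.ker_mkQ (W ⊔ W0), LinearMap.mem_ker, map_sum, ← hg]
      exact sum_congr rfl fun i _ => map_smul _ _ _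
    obtain ⟨w, hw, w0, hw0, hsum⟩ := Submodule.mem_sup.mp h1
    have h2 : ∑ i ∈ S, g i • (W.map W0.mkQ).mkQ (W0.mkQ (l i)) =
        (W.map W0.mkQ).mkQ (W0.mkQ (∑ i ∈ S, g i • l i)) := by
      simp only [map_sum, map_smul]
    rw [h2, ← hsum, map_add]
    have h3 : W0.mkQ w0 = 0 := by
      rw [← LinearMap.mem_ker, Submodule.ker_mkQ]
      exact hw0
    rw [h3, add_zero, ← LinearMap.mem_ker, Submodule.ker_mkQ]
    exact Submodule.mem_map_of_mem hw

/-- **The relation lemma.** -/
theorem relation {N : ℕ} (v : Fin N → ℂ) {ι : Type*} (l : ι → ℂ) (hl : ∀ s, l s ∈ Lt)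
    (W0 : Submodule QB ℂ) (hW0 : (1 : ℂ) ∈ W0)
    (hli : LinearIndependent QB (fun s => (U v ⊔ W0).mkQ (l s))) (S : Finset ι)
    (x : ι → ℂ) (hx : ∀ s ∈ S, x s ∈ Submodule.span QB (Set.range v)) (b c z : ℂ)
    (hb : b ∈ Submodule.span QB (Set.range v)) (hc : c ∈ Submodule.span QB (Set.range v))
    (hb0 : b ≠ 0) (hz : z ∈ Lt) (h : ∑ s ∈ S, x s * l s + c = b * z) :
    ∀ s ∈ S, IsAlgebraic ℚ (x s / b) := by
  classical
  have hrep : ∀ y ∈ Submodule.span QB (Set.range v), ∃ ξ : Fin N → QB, y = ∑ k, v k * (ξ k : ℂ) := by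
    intro y hy
    obtain ⟨ξ, hξ⟩ := (Submodule.mem_span_range_iff_exists_fun QB).mp hy
    refine ⟨ξ, ?_⟩
    rw [← hξ]
    refine sum_congr rfl fun k _ => ?_
    rw [Algebra.smul_def, mul_comm]
    rfl
  have hrep' : ∀ s, ∃ ξ : Fin N → QB, s ∈ S → x s = ∑ k, v k * (ξ k : ℂ) := by
    intro s
    by_cases hs : s ∈ S
    · obtain ⟨ξ, hξ⟩ := hrep _ (hx s hs)
      exact ⟨ξ, fun _ => hξ⟩
    · exact ⟨0, fun h => absurd h hs⟩
  choose ξ hξ using hrep'
  obtain ⟨β, hβ⟩ := hrep b hb
  obtain ⟨γ, hγ⟩ := hrep c hc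
  -- the coordinates of the relation
  let y : Fin N → ℂ := fun k => ∑ s ∈ S, (ξ s k : ℂ) * l s + (γ k : ℂ) * 1 - (β k : ℂ) * z
  have hyK : y ∈ Ker v := by
    refine ⟨fun k => ?_, ?_⟩
    · refine Lt.sub_mem (Lt.add_mem (Lt.sum_mem fun s _ => ?_) ?_) ?_
      · exact Lt_mul (mem_QB.mp (ξ s k).2) (hl s)
      · exact Lt_mul (mem_QB.mp (γ k).2) Lt_one
      · exact Lt_mul (mem_QB.mp (β k).2) hz
    · have e1 : ∑ k, v k * y k = ∑ s ∈ S, (∑ k, v k * (ξ s k : ℂ)) * l s +
          (∑ k, v k * (γ k : ℂ)) - (∑ k, v k * (β k : ℂ)) * z := by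
        simp only [y, mul_add, mul_sub, sum_add_distrib, sum_sub_distrib, sum_mul, mul_sum, mul_one]
        rw [sum_comm]
        congr 1
        · congr 1
          refine sum_congr rfl fun s _ => sum_congr rfl fun k _ => ?_
          ring
        · refine sum_congr rfl fun k _ => ?_
          ring
      rw [e1, ← hγ, ← hβ, ← h]
      have e2 : ∑ s ∈ S, (∑ k, v k * (ξ s k : ℂ)) * l s = ∑ s ∈ S, x s * l s :=
        sum_congr rfl fun s hs => by rw [← hξ s hs]
      rw [e2]
      ring
  have hyU : ∀ k, y k ∈ U v ⊔ W0 := fun k => Submodule.mem_sup_left (mem_U hyK k)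
  set W := U v ⊔ W0 with hW
  have h1W : W.mkQ (1 : ℂ) = 0 := by
    rw [← LinearMap.mem_ker, Submodule.ker_mkQ]
    exact Submodule.mem_sup_right hW0
  have hq : ∀ k, ∑ s ∈ S, ξ s k • W.mkQ (l s) = β k • W.mkQ z := by
    intro k
    have h2 : W.mkQ (y k) = 0 := by
      rw [← LinearMap.mem_ker, Submodule.ker_mkQ]
      exact hyU k
    have h3 : y k = ∑ s ∈ S, ξ s k • l s + γ k • (1 : ℂ) - β k • z := by
      simp only [y, Algebra.smul_def]
      rfl
    rw [h3, map_sub, map_add, map_sum] at h2
    simp only [map_smul, h1W, smul_zero, add_zero] at h2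
    exact sub_eq_zero.mp h2
  obtain ⟨k₀, hk₀⟩ : ∃ k, β k ≠ 0 := by
    by_contra hcon
    push Not at hcon
    apply hb0
    rw [hβ]
    apply sum_eq_zero
    intro k _
    rw [hcon k]
    simp
  have hind := linearIndependent_iff'.mp hli S
  intro s hs
  have hk : ∀ k, ξ s k = β k * (ξ s k₀ / β k₀) := by
    intro k
    have h4 : ∑ s ∈ S, (ξ s k - β k * (ξ s k₀ / β k₀)) • W.mkQ (l s) = 0 := by
      simp only [sub_smul, sum_sub_distrib]
      rw [hq k]
      have h5 : ∑ s ∈ S, (β k * (ξ s k₀ / β k₀)) • W.mkQ (l s) =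
          (β k * (β k₀)⁻¹) • ∑ s ∈ S, ξ s k₀ • W.mkQ (l s) := by
        rw [smul_sum]
        refine sum_congr rfl fun s _ => ?_
        rw [smul_smul]
        congr 1
        ring
      rw [h5, hq k₀, smul_smul]
      have h6 : β k * (β k₀)⁻¹ * β k₀ = β k := by
        rw [mul_assoc, inv_mul_cancel₀ hk₀, mul_one]
      rw [h6, sub_self]
    have := hind _ h4 s hs
    exact sub_eq_zero.mp this
  have h7 : x s = b * ((ξ s k₀ / β k₀ : QB) : ℂ) := by
    rw [hξ s hs, hβ, sum_mul]
    refine sum_congr rfl fun k _ => ?_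
    conv_lhs => rw [hk k]
    push_cast
    ring
  rw [h7, mul_div_cancel_left₀ _ hb0]
  exact mem_QB.mp (ξ s k₀ / β k₀ : QB).2

end Pool.Agent.X139.BT
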