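import Pool.Agent.X139.BT.Core

/-!
# The sharper bound for exponents in a fixed space
-/

set_option autoImplicit false

namespace Pool.Agent.X139.BT

open Module Finset
open Pool.Agent.H301R2.SSE (QB mem_QB Lt Lt_rep Lt_mul Lt_alg Lt_log Lt_one)
open Pool.Agent.W254.HP (hyperplane opt_indep)

/-- finitely many functionals suffice -/
theorem pivot {K R M : Type*} [Field K] [AddCommGroup R] [Module K R] [AddCommGroup M] [Module K M]
    {ι : Type*} (f : ι → R →ₗ[K] M) (hf : ∀ r, (∀ s, f s r = 0) → r = 0) (n : ℕ) :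
    ∀ (Q : Submodule K R), FiniteDimensional K Q → finrank K Q ≤ n →
      ∃ E : Finset ι, E.card ≤ n ∧ ∀ r ∈ Q, (∀ s ∈ E, f s r = 0) → r = 0 := by
  classical
  induction n with
  | zero =>
    intro Q hQ hn
    refine ⟨∅, le_rfl, fun r hr _ => ?_⟩
    have h1 : Q = ⊥ := by
      haveI := hQ
      exact Submodule.finrank_eq_zero.mp (Nat.le_zero.mp hn)
    rw [h1] at hr
    exact (Submodule.mem_bot K).mp hr
  | succ n ih =>
    intro Q hQ hn
    haveI := hQ
    by_cases hbot : Q = ⊥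
    · refine ⟨∅, by simp, fun r hr _ => ?_⟩
      rw [hbot] at hr
      exact (Submodule.mem_bot K).mp hr
    · obtain ⟨q, hq, hq0⟩ := Submodule.exists_mem_ne_zero_of_ne_bot hbot
      obtain ⟨s, hs⟩ : ∃ s, f s q ≠ 0 := by
        by_contra hcon
        push Not at hcon
        exact hq0 (hf q hcon)
      have hlt : Q ⊓ LinearMap.ker (f s) < Q := by
        refine lt_of_le_of_ne inf_le_left fun h => hs ?_
        have : q ∈ Q ⊓ LinearMap.ker (f s) := by rw [h]; exact hq
        exact this.2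
      have hfr := Submodule.finrank_lt_finrank_of_lt hlt
      obtain ⟨E, hE, h⟩ := ih (Q ⊓ LinearMap.ker (f s))
        (Submodule.finiteDimensional_of_le inf_le_left) (by omega)
      refine ⟨insert s E, (card_insert_le _ _).trans (by omega), fun r hr h0 => ?_⟩
      apply h r ⟨hr, h0 s (mem_insert_self _ _)⟩
      intro t ht
      exact h0 t (mem_insert_of_mem ht)

/-- the line of algebraic numbers -/
noncomputable def W1 : Submodule QB ℂ := Submodule.span QB {(1 : ℂ)}

theorem W1_mkQ_alg (a : QB) : W1.mkQ (a : ℂ) = 0 := by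
  rw [← LinearMap.mem_ker, Submodule.ker_mkQ]
  unfold W1
  rw [Submodule.mem_span_singleton]
  refine ⟨a, ?_⟩
  rw [Algebra.smul_def, mul_one]
  rfl

/-- **Relations with the fixed denominator `1`.** -/
theorem relation1 (V : Submodule QB ℂ) [FiniteDimensional QB V] (h1V : (1 : ℂ) ∈ V) {ι : Type*}
    (l : ι → ℂ) (hl : ∀ s, l s ∈ Lt) (hli : LinearIndependent QB (fun s => W1.mkQ (l s))) :
    ∃ E : Finset ι, E.card ≤ finrank QB V * (finrank QB V - 1) ∧
      ((∃ v ∈ V, v ∈ Lt ∧ Transcendental ℚ v) →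
        E.card + 1 ≤ finrank QB V * (finrank QB V - 1)) ∧
      ∀ S : Finset ι, Disjoint S E → ∀ (x : ι → ℂ) (c z : ℂ), (∀ s ∈ S, x s ∈ V) → c ∈ V → z ∈ Lt →
        ∑ s ∈ S, x s * l s + c = z → ∀ s ∈ S, IsAlgebraic ℚ (x s) := by
  classical
  set M := finrank QB V with hM
  let B := Module.finBasis QB V
  let w : Fin M → ℂ := fun k => (B k : ℂ)
  have hw : LinearIndependent QB w := B.linearIndependent.map' V.subtype V.ker_subtype
  haveI := finite_Ker w hw
  have hKer := finrank_Ker w hw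
  have hrep : ∀ y ∈ V, ∃ ξ : Fin M → QB, y = ∑ k, w k * (ξ k : ℂ) := by
    intro y hy
    refine ⟨fun k => B.repr ⟨y, hy⟩ k, ?_⟩
    have h1 := B.sum_repr ⟨y, hy⟩
    have h2 := congrArg (fun z : V => (z : ℂ)) h1
    simp only [Submodule.coe_sum, Submodule.coe_smul] at h2
    refine h2.symm.trans (sum_congr rfl fun k _ => ?_)
    rw [Algebra.smul_def, mul_comm]
    rfl
  obtain ⟨a, ha⟩ := hrep 1 h1V
  obtain ⟨k₀, hk₀⟩ : ∃ k, a k ≠ 0 := by
    by_contra hcon
    push Not at hcon
    apply one_ne_zero (α := ℂ)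
    rw [ha]
    apply sum_eq_zero
    intro k _
    rw [hcon k]
    simp
  have hk₀' : (a k₀ : ℂ) ≠ 0 := fun h => hk₀ (Subtype.ext h)
  -- the map `τ`
  let τ : Ker w →ₗ[QB] (Fin M → ℂ ⧸ W1) := LinearMap.pi fun k =>
    W1.mkQ.comp ((a k₀ • (LinearMap.proj k : (Fin M → ℂ) →ₗ[QB] ℂ) -
      a k • (LinearMap.proj k₀ : (Fin M → ℂ) →ₗ[QB] ℂ)).comp (Ker w).subtype)
  have hτ : ∀ (y : Ker w) k, τ y k = W1.mkQ (a k₀ • (y : Fin M → ℂ) k - a k • (y : Fin M → ℂ) k₀) :=
    fun y k => rfl
  -- the map `σ`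
  let σ : (Fin M → (ι →₀ QB)) →ₗ[QB] (Fin M → ℂ ⧸ W1) :=
    LinearMap.pi fun k => (Finsupp.linearCombination QB (fun s => W1.mkQ (l s))).comp
      (LinearMap.proj k)
  have hσ : ∀ ρ k, σ ρ k = Finsupp.linearCombination QB (fun s => W1.mkQ (l s)) (ρ k) :=
    fun ρ k => rfl
  have hσi : Function.Injective σ := by
    rw [← LinearMap.ker_eq_bot, LinearMap.ker_eq_bot']
    intro ρ hρ
    funext k
    have := congrFun hρ k
    rw [hσ] at this
    exact (linearIndependent_iff.mp hli) _ this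
  let R : Submodule QB (Fin M → (ι →₀ QB)) := (LinearMap.range τ).comap σ
  let σ' : R →ₗ[QB] LinearMap.range τ := σ.restrict (fun r hr => hr)
  have hσ'i : Function.Injective σ' := by
    intro r r' h
    apply Subtype.ext
    apply hσi
    exact congrArg (fun z : LinearMap.range τ => (z : Fin M → ℂ ⧸ W1)) h
  haveI : FiniteDimensional QB R := Module.Finite.of_injective σ' hσ'i
  have hR : finrank QB R ≤ finrank QB (LinearMap.range τ) :=
    LinearMap.finrank_le_finrank_of_injective hσ'i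
  have hrn := LinearMap.finrank_range_add_finrank_ker τ
  -- the kernel of `τ`
  have hker : (∃ v ∈ V, v ∈ Lt ∧ Transcendental ℚ v) → 1 ≤ finrank QB (LinearMap.ker τ) := by
    rintro ⟨v, hvV, hvL, hvt⟩
    obtain ⟨ν, hν⟩ := hrep v hvV
    let y : Fin M → ℂ := fun k => (ν k : ℂ) - (a k : ℂ) * v
    have hyK : y ∈ Ker w := by
      refine ⟨fun k => Lt.sub_mem (Lt_alg (mem_QB.mp (ν k).2))
          (Lt_mul (mem_QB.mp (a k).2) hvL), ?_⟩
      have : ∑ k, w k * y k = (∑ k, w k * (ν k : ℂ)) - (∑ k, w k * (a k : ℂ)) * v := by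
        rw [sum_mul, ← sum_sub_distrib]
        refine sum_congr rfl fun k _ => ?_
        simp only [y]
        ring
      rw [this, ← hν, ← ha, one_mul, sub_self]
    have hyτ : (⟨y, hyK⟩ : Ker w) ∈ LinearMap.ker τ := by
      rw [LinearMap.mem_ker]
      funext k
      rw [hτ]
      have e : a k₀ • y k - a k • y k₀ = ((a k₀ * ν k - a k * ν k₀ : QB) : ℂ) := by
        simp only [y, Algebra.smul_def]
        change (a k₀ : ℂ) * _ - (a k : ℂ) * _ = _
        push_cast
        ring
      change W1.mkQ (a k₀ • y k - a k • y k₀) = 0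
      rw [e]
      exact W1_mkQ_alg _
    refine Submodule.one_le_finrank_iff.mpr fun hbot => ?_
    have h6 : (⟨y, hyK⟩ : Ker w) = 0 := by
      rw [hbot] at hyτ
      exact (Submodule.mem_bot QB).mp hyτ
    have h7 : y k₀ = 0 := congrArg (fun z : Ker w => (z : Fin M → ℂ) k₀) h6
    apply hvt
    have h8 : v = ((ν k₀ / a k₀ : QB) : ℂ) := by
      push_cast
      rw [eq_div_iff hk₀']
      simp only [y] at h7
      linear_combination -h7
    rw [h8]
    exact mem_QB.mp (ν k₀ / a k₀ : QB).2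
  -- the exceptional set
  obtain ⟨E, hE, hpiv⟩ := pivot (K := QB) (R := Fin M → (ι →₀ QB)) (M := Fin M → QB)
    (fun s : ι => LinearMap.pi fun k => (Finsupp.lapply s).comp (LinearMap.proj k))
    (by
      intro r hr
      funext k
      ext s
      have := congrFun (hr s) k
      exact congrArg (fun z : QB => (z : ℂ)) this) (finrank QB R) R inferInstance le_rfl
  refine ⟨E, by omega, fun hv => ?_, ?_⟩
  · have := hker hv
    omega
  · intro S hSE x c z hx hc hz h
    have hrep' : ∀ s, ∃ ξ : Fin M → QB, s ∈ S → x s = ∑ k, w k * (ξ k : ℂ) := by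
      intro s
      by_cases hs : s ∈ S
      · obtain ⟨ξ, hξ⟩ := hrep _ (hx s hs)
        exact ⟨ξ, fun _ => hξ⟩
      · exact ⟨0, fun h => absurd h hs⟩
    choose ξ hξ using hrep'
    obtain ⟨γ, hγ⟩ := hrep c hc
    let y : Fin M → ℂ := fun k => ∑ s ∈ S, (ξ s k : ℂ) * l s + (γ k : ℂ) * 1 - (a k : ℂ) * z
    have hyK : y ∈ Ker w := by
      refine ⟨fun k => ?_, ?_⟩
      · refine Lt.sub_mem (Lt.add_mem (Lt.sum_mem fun s _ => ?_) ?_) ?_
        · exact Lt_mul (mem_QB.mp (ξ s k).2) (hl s)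
        · exact Lt_mul (mem_QB.mp (γ k).2) Lt_one
        · exact Lt_mul (mem_QB.mp (a k).2) hz
      · have e1 : ∑ k, w k * y k = ∑ s ∈ S, (∑ k, w k * (ξ s k : ℂ)) * l s +
            (∑ k, w k * (γ k : ℂ)) - (∑ k, w k * (a k : ℂ)) * z := by
          simp only [y, mul_add, mul_sub, sum_add_distrib, sum_sub_distrib, sum_mul, mul_sum,
            mul_one]
          rw [sum_comm]
          congr 1
          · congr 1
            refine sum_congr rfl fun s _ => sum_congr rfl fun k _ => ?_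
            ring
          · refine sum_congr rfl fun k _ => ?_
            ring
        rw [e1, ← hγ, ← ha, one_mul, ← h]
        have e2 : ∑ s ∈ S, (∑ k, w k * (ξ s k : ℂ)) * l s = ∑ s ∈ S, x s * l s :=
          sum_congr rfl fun s hs => by rw [← hξ s hs]
        rw [e2]
        ring
    let ρ : Fin M → (ι →₀ QB) := fun k =>
      ∑ s ∈ S, Finsupp.single s (a k₀ * ξ s k - a k * ξ s k₀)
    have hρs : ∀ k s, ρ k s = if s ∈ S then a k₀ * ξ s k - a k * ξ s k₀ else 0 := by
      intro k s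
      simp only [ρ, Finsupp.finsetSum_apply, Finsupp.single_apply]
      rw [sum_ite_eq']
    have hρR : ρ ∈ R := by
      refine ⟨⟨y, hyK⟩, ?_⟩
      funext k
      rw [hτ, hσ]
      have e3 : (a k₀ • y k - a k • y k₀ : ℂ) =
          ∑ s ∈ S, (a k₀ * ξ s k - a k * ξ s k₀) • l s +
            ((a k₀ * γ k - a k * γ k₀ : QB) : ℂ) := by
        simp only [y, Algebra.smul_def]
        change (a k₀ : ℂ) * _ - (a k : ℂ) * _ = ∑ s ∈ S,
          ((a k₀ * ξ s k - a k * ξ s k₀ : QB) : ℂ) * l s + _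
        push_cast
        simp only [sub_mul, sum_sub_distrib, mul_add, mul_sub, mul_sum]
        have e4 : ∑ s ∈ S, (a k₀ : ℂ) * ((ξ s k : ℂ) * l s) =
          ∑ s ∈ S, (a k₀ : ℂ) * (ξ s k : ℂ) * l s := sum_congr rfl fun s _ => by ring
        have e5 : ∑ s ∈ S, (a k : ℂ) * ((ξ s k₀ : ℂ) * l s) =
          ∑ s ∈ S, (a k : ℂ) * (ξ s k₀ : ℂ) * l s := sum_congr rfl fun s _ => by ring
        rw [e4, e5]
        ring
      change W1.mkQ (a k₀ • y k - a k • y k₀) = _
      rw [e3, map_add, W1_mkQ_alg, add_zero, map_sum]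
      simp only [ρ, map_sum, Finsupp.linearCombination_single, map_smul]
    have hρ0 : ρ = 0 := by
      apply hpiv ρ hρR
      intro s hs
      funext k
      change ρ k s = 0
      rw [hρs, if_neg (fun h => (Finset.disjoint_left.mp hSE) h hs)]
    intro s hs
    have h5 : ∀ k, a k₀ * ξ s k = a k * ξ s k₀ := by
      intro k
      have h6 : ρ k s = 0 := by rw [hρ0]; rfl
      rw [hρs, if_pos hs] at h6
      exact sub_eq_zero.mp h6
    have h7 : x s = ((ξ s k₀ / a k₀ : QB) : ℂ) := by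
      rw [hξ s hs]
      have h8 : ∀ k, (ξ s k : ℂ) = (a k : ℂ) * ((ξ s k₀ / a k₀ : QB) : ℂ) := by
        intro k
        have h9 : ξ s k = a k * (ξ s k₀ / a k₀) := by
          field_simp
          linear_combination h5 k
        conv_lhs => rw [h9]
        push_cast
        rfl
      calc ∑ k, w k * (ξ s k : ℂ) = (∑ k, w k * (a k : ℂ)) * ((ξ s k₀ / a k₀ : QB) : ℂ) := by
            rw [sum_mul]
            refine sum_congr rfl fun k _ => ?_
            rw [h8 k]; ring
        _ = _ := by rw [← ha, one_mul]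
    rw [h7]
    exact mem_QB.mp (ξ s k₀ / a k₀ : QB).2

end Pool.Agent.X139.BT
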