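import Pool.Agent.X139.BT.Core

/-!
# Baker's theorem with exponents in a finite dimensional space of numbers
-/

set_option autoImplicit false

namespace Pool.Agent.X139.BT

open Module Finset
open Pool.Agent.H301R2.SSE (QB mem_QB Lt Lt_rep Lt_mul Lt_alg Lt_log Lt_one)
open Pool.Agent.W254.HP (hyperplane opt_indep)

/-- all combinations of the real numbers `v k` with real algebraic coefficients -/
def Comb {N : ℕ} (v : Fin N → ℝ) : Set ℝ :=
  {x | ∃ β : Fin N → ℝ, (∀ k, IsAlgebraic ℚ (β k)) ∧ x = ∑ k, β k * v k}

theorem alg_ofReal {a : ℝ} (h : IsAlgebraic ℚ a) : IsAlgebraic ℚ (a : ℂ) := h.algebraMap (A := ℂ)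

theorem alg_of_ofReal {a : ℝ} (h : IsAlgebraic ℚ (a : ℂ)) : IsAlgebraic ℚ a :=
  (isAlgebraic_algebraMap_iff (algebraMap ℝ ℂ).injective).mp h

theorem span_of_Comb {N : ℕ} {v : Fin N → ℝ} {x : ℝ} (h : x ∈ Comb v) :
    (x : ℂ) ∈ Submodule.span QB (Set.range fun k => (v k : ℂ)) := by
  obtain ⟨β, hβ, rfl⟩ := h
  push_cast
  apply Submodule.sum_mem
  intro k _
  have := Submodule.smul_mem (Submodule.span QB (Set.range fun k => (v k : ℂ)))
    (⟨(β k : ℂ), mem_QB.mpr (alg_ofReal (hβ k))⟩ : QB) (Submodule.subset_span ⟨k, rfl⟩)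
  rwa [Algebra.smul_def] at this

/-- `1` and `π` -/
noncomputable def W0 : Submodule QB ℂ := Submodule.span QB {(1 : ℂ), (Real.pi : ℂ)}

theorem one_mem_W0 : (1 : ℂ) ∈ W0 := Submodule.subset_span (by simp)
theorem pi_mem_W0 : (Real.pi : ℂ) ∈ W0 := Submodule.subset_span (by simp)

/-- Baker's theorem: real logarithms modulo `1` and `π` -/
theorem indep_W0 {ι : Type} (l : ι → ℝ) (hl : ∀ s, IsAlgebraic ℚ (Complex.exp (l s)))
    (hli : LinearIndependent ℚ l) : LinearIndependent QB (fun s => W0.mkQ (l s : ℂ)) := by
  classical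
  let L : Option ι → ℂ := fun o => o.elim ((Real.pi : ℂ) * Complex.I) (fun s => (l s : ℂ))
  have hL : ∀ o, IsAlgebraic ℚ (Complex.exp (L o)) := by
    intro o
    cases o with
    | none =>
      change IsAlgebraic ℚ (Complex.exp ((Real.pi : ℂ) * Complex.I))
      rw [Complex.exp_pi_mul_I]
      exact (isAlgebraic_one).neg
    | some s => exact hl s
  have hLi : LinearIndependent ℚ L := by
    rw [linearIndependent_iff']
    intro S g hg
    have h1 := hg
    have him : (if none ∈ S then (g none : ℝ) * Real.pi else 0) = 0 := by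
      have h2 := congrArg Complex.im h1
      rw [Complex.im_sum, Complex.zero_im] at h2
      refine Eq.trans ?_ h2
      rw [← sum_ite_eq S none (fun o => (g o : ℝ) * Real.pi)]
      refine sum_congr rfl fun o _ => ?_
      cases o with
      | none =>
        rw [if_pos rfl, Rat.smul_def]
        simp [L]
      | some s =>
        rw [if_neg (by simp), Rat.smul_def]
        simp [L]
    have hnone : none ∈ S → g none = 0 := by
      intro hn
      rw [if_pos hn] at him
      have := (mul_eq_zero.mp him).resolve_right Real.pi_ne_zero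
      exact_mod_cast this
    have hre : ∑ s ∈ S.eraseNone, g (some s) • l s = 0 := by
      have h2 := congrArg Complex.re h1
      rw [Complex.re_sum, Complex.zero_re] at h2
      rw [← h2, ← Finset.sum_subset (s₁ := S.eraseNone.map Function.Embedding.some) (s₂ := S)]
      · rw [sum_map]
        refine sum_congr rfl fun s _ => ?_
        change g (some s) • l s = (g (some s) • ((l s : ℝ) : ℂ)).re
        rw [Rat.smul_def, Rat.smul_def]
        simp
      · intro o ho
        obtain ⟨s, hs, rfl⟩ := mem_map.mp ho
        exact mem_eraseNone.mp hs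
      · intro o ho hno
        cases o with
        | none =>
          rw [hnone ho, zero_smul, Complex.zero_re]
        | some s =>
          exfalso
          exact hno (mem_map.mpr ⟨s, mem_eraseNone.mpr ho, rfl⟩)
    intro o ho
    cases o with
    | none => exact hnone ho
    | some s =>
      exact linearIndependent_iff'.mp hli _ (fun s => g (some s)) hre s (mem_eraseNone.mpr ho)
  have hB := opt_indep L hL hLi
  rw [linearIndependent_iff'] at hB ⊢
  intro S g hg s hs
  have h1 : ∑ s ∈ S, g s • (l s : ℂ) ∈ W0 := by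
    rw [← Submodule.ker_mkQ W0, LinearMap.mem_ker, map_sum, ← hg]
    exact sum_congr rfl fun i _ => map_smul _ _ _
  obtain ⟨a, b, hab⟩ := Submodule.mem_span_pair.mp h1
  have hI : IsAlgebraic ℚ Complex.I := Complex.isIntegral_rat_I.isAlgebraic
  let G : Option (Option ι) → QB := fun o => o.elim (-a) (fun o' => o'.elim
    (b * ⟨Complex.I, mem_QB.mpr hI⟩) (fun s => g s))
  let S' : Finset (Option (Option ι)) :=
    insert none (insert (some none) (S.map (Function.Embedding.some.trans Function.Embedding.some)))
  have h2 := hB S' G (by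
    rw [sum_insert (by simp), sum_insert (by simp), sum_map]
    have e1 : ∑ x ∈ S, G ((Function.Embedding.some.trans Function.Embedding.some) x) •
        (fun o : Option (Option ι) => o.elim 1 L)
          ((Function.Embedding.some.trans Function.Embedding.some) x) =
        ∑ s ∈ S, g s • (l s : ℂ) := rfl
    rw [e1, ← hab]
    simp only [G, L, Option.elim_none, Option.elim_some, Algebra.smul_def]
    change ((-a : QB) : ℂ) * 1 + (((b * ⟨Complex.I, mem_QB.mpr hI⟩ : QB) : ℂ) *
      ((Real.pi : ℂ) * Complex.I) + ((a : ℂ) * 1 + (b : ℂ) * (Real.pi : ℂ))) = 0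
    push_cast
    have := Complex.I_mul_I
    linear_combination (b : ℂ) * Real.pi * this) (some (some s))
    (mem_insert_of_mem (mem_insert_of_mem (mem_map_of_mem _ hs)))
  exact h2

theorem exp_log_alg {α : ℝ} (h0 : 0 < α) (h : IsAlgebraic ℚ α) :
    IsAlgebraic ℚ (Complex.exp ((Real.log α : ℝ) : ℂ)) := by
  rw [← Complex.ofReal_exp, Real.exp_log h0]
  exact alg_ofReal h

/-- the product as an exponential -/
theorem prod_eq {ι : Type} (α : ι → ℝ) (h0 : ∀ s, 0 < α s) (S : Finset ι) (x : ι → ℝ) :
    ∏ s ∈ S, α s ^ x s = Real.exp (∑ s ∈ S, x s * Real.log (α s)) := by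
  rw [Real.exp_sum]
  refine prod_congr rfl fun s _ => ?_
  rw [Real.rpow_def_of_pos (h0 s), mul_comm]

/-- rational linear combination: algebraic coefficients of a logarithm are rational -/
theorem rational_of_log {ι : Type} (l : ι → ℝ) (hl : ∀ s, IsAlgebraic ℚ (Complex.exp (l s)))
    (hli : LinearIndependent ℚ l) (S : Finset ι) (ζ : ι → ℝ)
    (hζ : ∀ s ∈ S, IsAlgebraic ℚ (ζ s))
    (h : IsAlgebraic ℚ (Complex.exp ((∑ s ∈ S, ζ s * l s : ℝ) : ℂ))) :
    ∀ s ∈ S, ¬ Irrational (ζ s) := by
  classical
  intro s hs hirr
  set y : ℝ := ∑ s ∈ S, ζ s * l s with hy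
  -- `y` with the `l s`, `s ∈ S`
  by_cases hmem : y ∈ Submodule.span ℚ (Set.range fun s : {s // s ∈ S} => l s)
  · obtain ⟨q, hq⟩ := (Submodule.mem_span_range_iff_exists_fun ℚ).mp hmem
    have hB := opt_indep (fun s : {s // s ∈ S} => (l s : ℂ)) (fun s => hl s) (by
      have h1 : LinearIndependent ℚ (fun s : {s // s ∈ S} => l s) :=
        hli.comp _ Subtype.val_injective
      have h2 := h1.map' (Algebra.linearMap ℝ ℂ |>.restrictScalars ℚ) (by
        rw [LinearMap.ker_eq_bot]
        exact (algebraMap ℝ ℂ).injective)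
      exact h2)
    rw [linearIndependent_iff'] at hB
    have h3 := hB (univ.map Function.Embedding.some)
      (fun o => o.elim 0 (fun s => ⟨((ζ s - q s : ℝ) : ℂ), mem_QB.mpr (alg_ofReal
        ((hζ s s.2).sub (isAlgebraic_algebraMap (R := ℚ) (A := ℝ) (q s))))⟩)) (by
        rw [sum_map]
        simp only [Function.Embedding.some_apply, Option.elim_some, Algebra.smul_def]
        change ∑ s : {s // s ∈ S}, ((ζ s - q s : ℝ) : ℂ) * (l s : ℂ) = 0
        have h4 : ∑ s : {s // s ∈ S}, (ζ s - q s) * l s = 0 := by
          simp only [sub_mul, sum_sub_distrib]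
          rw [sum_coe_sort S (fun s => ζ s * l s), ← hy, ← hq]
          simp only [Rat.smul_def]
          ring
        exact_mod_cast congrArg (fun r : ℝ => (r : ℂ)) h4) (some ⟨s, hs⟩)
      (mem_map_of_mem _ (mem_univ _))
    have h5 : ((ζ s - q ⟨s, hs⟩ : ℝ) : ℂ) = 0 := congrArg (fun z : QB => (z : ℂ)) h3
    have h6 : ζ s = q ⟨s, hs⟩ := by
      have : ζ s - q ⟨s, hs⟩ = 0 := by exact_mod_cast h5
      linarith
    exact hirr ⟨q ⟨s, hs⟩, h6.symm⟩
  · -- all are independent
    have hli2 : LinearIndependent ℚ (fun o : Option {s // s ∈ S} => o.elim y (fun s => l s)) := by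
      rw [linearIndependent_option]
      exact ⟨hli.comp _ Subtype.val_injective, hmem⟩
    have hB := opt_indep (fun o : Option {s // s ∈ S} => ((o.elim y (fun s => l s) : ℝ) : ℂ))
      (by
        intro o
        cases o with
        | none => exact h
        | some s => exact hl s) (by
      have h2 := hli2.map' (Algebra.linearMap ℝ ℂ |>.restrictScalars ℚ) (by
        rw [LinearMap.ker_eq_bot]
        exact (algebraMap ℝ ℂ).injective)
      exact h2)
    rw [linearIndependent_iff'] at hB
    have h3 := hB ((insert none (univ.map Function.Embedding.some)).map Function.Embedding.some)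
      (fun o => o.elim 0 (fun o' => o'.elim (-1) (fun s => ⟨(ζ s : ℂ), mem_QB.mpr (alg_ofReal
        (hζ s s.2))⟩))) (by
        rw [sum_map, sum_insert (by simp), sum_map]
        simp only [Function.Embedding.some_apply, Option.elim_some, Option.elim_none,
          Algebra.smul_def]
        change ((-1 : QB) : ℂ) * (y : ℂ) + ∑ s : {s // s ∈ S}, ((ζ s : ℝ) : ℂ) * (l s : ℂ) = 0
        have h4 : ∑ s : {s // s ∈ S}, (ζ s) * l s = y := by
          rw [sum_coe_sort S (fun s => ζ s * l s)]
        have h5 : (y : ℂ) = ∑ s : {s // s ∈ S}, ((ζ s : ℝ) : ℂ) * (l s : ℂ) := by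
          rw [← h4]; push_cast; rfl
        rw [← h5]
        push_cast
        ring) (some none) (by simp)
    have h6 : ((-1 : QB) : ℂ) = 0 := congrArg (fun z : QB => (z : ℂ)) h3
    push_cast at h6
    norm_num at h6

theorem main {N : ℕ} (v : Fin N → ℝ) {ι : Type} (α : ι → ℝ) (h0 : ∀ s, 0 < α s)
    (ha : ∀ s, IsAlgebraic ℚ (α s)) (hli : LinearIndependent ℚ (fun s => Real.log (α s))) :
    ∃ E : Finset ι, E.card ≤ N ^ 2 * (N - 1) ∧
      (1 ∈ Comb v → Real.pi ∈ Comb v → E.card + 2 ≤ N ^ 2 * (N - 1)) ∧
      ∀ (S : Finset ι) (x : ι → ℝ) (b c : ℝ), (∀ s ∈ S, x s ∈ Comb v) →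
        b ∈ Comb v → b ≠ 0 → c ∈ Comb v → (∀ s ∈ S, s ∈ E → IsAlgebraic ℚ (x s / b)) →
        ((∃ s ∈ S, Transcendental ℚ (x s / b)) →
          Transcendental ℚ ((∏ s ∈ S, α s ^ (x s / b)) * Real.exp (c / b))) ∧
        ((∃ s ∈ S, Irrational (x s / b)) → Transcendental ℚ (∏ s ∈ S, α s ^ (x s / b))) := by
  classical
  set V : Submodule QB ℂ := Submodule.span QB (Set.range fun k => (v k : ℂ)) with hV
  haveI : FiniteDimensional QB V := FiniteDimensional.span_of_finite QB (Set.finite_range _)
  set M := finrank QB V with hM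
  have hMN : M ≤ N := by
    have := finrank_range_le_card (R := QB) (fun k : Fin N => (v k : ℂ))
    rwa [Fintype.card_fin] at this
  let B := Module.finBasis QB V
  let w : Fin M → ℂ := fun k => (B k : ℂ)
  have hw : LinearIndependent QB w := B.linearIndependent.map' V.subtype V.ker_subtype
  have hwspan : Submodule.span QB (Set.range w) = V := by
    have h1 : Set.range w = V.subtype '' (Set.range B) := by
      rw [← Set.range_comp]; rfl
    rw [h1, ← Submodule.map_span, B.span_eq, Submodule.map_subtype_top]
  haveI := finite_U w hw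
  have hl : ∀ s, IsAlgebraic ℚ (Complex.exp ((Real.log (α s) : ℝ) : ℂ)) := fun s =>
    exp_log_alg (h0 s) (ha s)
  obtain ⟨E, hE, hind⟩ := select2 (fun s => ((Real.log (α s) : ℝ) : ℂ)) W0 (U w)
    (indep_W0 (fun s => Real.log (α s)) hl hli)
  have hmono : M ^ 2 * (M - 1) ≤ N ^ 2 * (N - 1) :=
    Nat.mul_le_mul (Nat.pow_le_pow_left hMN 2) (Nat.sub_le_sub_right hMN 1)
  have hU := finrank_U w hw
  refine ⟨E, by omega, ?_, ?_⟩
  · intro h1 hpi
    have h1V : (1 : ℂ) ∈ V := by
      have := span_of_Comb h1
      rwa [Complex.ofReal_one] at this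
    have hpV : (Real.pi : ℂ) ∈ V := span_of_Comb hpi
    -- the relation `1 * π - π * 1`
    have hmem : (1 : ℂ) ∈ U w ∧ (Real.pi : ℂ) ∈ U w := by
      obtain ⟨a, ha'⟩ := (Submodule.mem_span_range_iff_exists_fun QB).mp (hwspan ▸ h1V)
      obtain ⟨p, hp⟩ := (Submodule.mem_span_range_iff_exists_fun QB).mp (hwspan ▸ hpV)
      have ha2 : ∑ k, w k * (a k : ℂ) = 1 := by
        rw [← ha']
        refine sum_congr rfl fun k _ => ?_
        rw [Algebra.smul_def, mul_comm]; rfl
      have hp2 : ∑ k, w k * (p k : ℂ) = Real.pi := by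
        rw [← hp]
        refine sum_congr rfl fun k _ => ?_
        rw [Algebra.smul_def, mul_comm]; rfl
      have hpiL : (Real.pi : ℂ) ∈ Lt := by
        have h2 : (Real.pi : ℂ) = -Complex.I * ((Real.pi : ℂ) * Complex.I) := by
          linear_combination (Real.pi : ℂ) * Complex.I_mul_I
        rw [h2]
        apply Lt_mul Complex.isIntegral_rat_I.isAlgebraic.neg
        apply Lt_log
        rw [Complex.exp_pi_mul_I]
        exact isAlgebraic_one.neg
      let y : Fin M → ℂ := fun k => (a k : ℂ) * Real.pi - (p k : ℂ) * 1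
      have hy : y ∈ Ker w := by
        refine ⟨fun k => Lt.sub_mem (Lt_mul (mem_QB.mp (a k).2) hpiL)
          (Lt_mul (mem_QB.mp (p k).2) Lt_one), ?_⟩
        have : ∑ k, w k * y k = (∑ k, w k * (a k : ℂ)) * Real.pi - ∑ k, w k * (p k : ℂ) := by
          rw [sum_mul, ← sum_sub_distrib]
          refine sum_congr rfl fun k _ => ?_
          simp only [y]
          ring
        rw [this, ha2, hp2]
        ring
      have hyU : ∀ k, y k ∈ U w := fun k => mem_U hy k
      -- two coordinates with independent coefficients
      by_contra hcon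
      -- all `(a k, p k)` are proportional
      have hprop : ∀ j k, a j * p k = a k * p j := by
        intro j k
        by_contra hne
        apply hcon
        have hd : (a j : ℂ) * p k - a k * p j ≠ 0 := by
          intro h
          apply hne
          have : ((a j * p k - a k * p j : QB) : ℂ) = 0 := by push_cast; exact h
          exact sub_eq_zero.mp (Subtype.ext this)
        have hdq : (a j * p k - a k * p j : QB) ≠ 0 := sub_ne_zero.mpr hne
        constructor
        · have h3 := (U w).sub_mem ((U w).smul_mem (a j) (hyU k)) ((U w).smul_mem (a k) (hyU j))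
          have h4 := (U w).smul_mem (-(a j * p k - a k * p j)⁻¹) h3
          have e : (-(a j * p k - a k * p j)⁻¹ : QB) • (a j • y k - a k • y j) = (1 : ℂ) := by
            simp only [Algebra.smul_def, y]
            change ((-(a j * p k - a k * p j)⁻¹ : QB) : ℂ) * ((a j : ℂ) * ((a k : ℂ) * Real.pi -
              (p k : ℂ) * 1) - (a k : ℂ) * ((a j : ℂ) * Real.pi - (p j : ℂ) * 1)) = 1
            push_cast
            field_simp
            ring
          rwa [e] at h4
        · have h3 := (U w).sub_mem ((U w).smul_mem (p k) (hyU j)) ((U w).smul_mem (p j) (hyU k))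
          have h4 := (U w).smul_mem ((a j * p k - a k * p j)⁻¹) h3
          have e : ((a j * p k - a k * p j)⁻¹ : QB) • (p k • y j - p j • y k) =
              (Real.pi : ℂ) := by
            simp only [Algebra.smul_def, y]
            change (((a j * p k - a k * p j)⁻¹ : QB) : ℂ) * ((p k : ℂ) * ((a j : ℂ) * Real.pi -
              (p j : ℂ) * 1) - (p j : ℂ) * ((a k : ℂ) * Real.pi - (p k : ℂ) * 1)) = Real.pi
            push_cast
            field_simp
            ring
          rwa [e] at h4
      obtain ⟨j, hj⟩ : ∃ j, a j ≠ 0 := by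
        by_contra hall
        push Not at hall
        have : (1 : ℂ) = 0 := by
          rw [← ha2]
          apply sum_eq_zero
          intro k _
          rw [hall k]; simp
        exact one_ne_zero this
      have hpe : (Real.pi : ℂ) = ((p j / a j : QB) : ℂ) := by
        rw [← hp2]
        have h5 : ∀ k, (p k : ℂ) = (a k : ℂ) * ((p j / a j : QB) : ℂ) := by
          intro k
          have h6 : p k = a k * (p j / a j) := by
            field_simp
            have := hprop j k
            linear_combination this
          conv_lhs => rw [h6]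
          push_cast
          rfl
        calc ∑ k, w k * (p k : ℂ) = (∑ k, w k * (a k : ℂ)) * ((p j / a j : QB) : ℂ) := by
              rw [sum_mul]
              refine sum_congr rfl fun k _ => ?_
              rw [h5 k]; ring
          _ = _ := by rw [ha2, one_mul]
      apply Pool.Agent.H340R2.LW.transcendental_pi_complex
      rw [hpe]
      exact mem_QB.mp (p j / a j : QB).2
    have hle : W0 ≤ U w ⊓ W0 := by
      refine le_inf ?_ le_rfl
      unfold W0
      rw [Submodule.span_le]
      rintro z (rfl | rfl)
      · exact hmem.1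
      · exact hmem.2
    have h2 : 2 ≤ finrank QB (U w ⊓ W0 : Submodule QB ℂ) := by
      have hli2 : LinearIndependent QB ![(1 : ℂ), (Real.pi : ℂ)] := by
        rw [LinearIndependent.pair_iff]
        intro a b hab
        rw [Algebra.smul_def, Algebra.smul_def] at hab
        change (a : ℂ) * 1 + (b : ℂ) * Real.pi = 0 at hab
        by_cases hb : b = 0
        · subst hb
          refine ⟨?_, rfl⟩
          apply Subtype.ext
          simpa using hab
        · exfalso
          have hb' : (b : ℂ) ≠ 0 := fun h => hb (Subtype.ext h)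
          apply Pool.Agent.H340R2.LW.transcendental_pi_complex
          have : (Real.pi : ℂ) = ((-a / b : QB) : ℂ) := by
            push_cast
            field_simp
            linear_combination hab
          rw [this]
          exact mem_QB.mp (-a / b : QB).2
      have h3 : LinearIndependent QB (fun i : Fin 2 => (⟨![(1 : ℂ), (Real.pi : ℂ)] i, by
          apply hle
          fin_cases i
          · exact one_mem_W0
          · exact pi_mem_W0⟩ : (U w ⊓ W0 : Submodule QB ℂ))) := by
        apply LinearIndependent.of_comp (U w ⊓ W0 : Submodule QB ℂ).subtype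
        exact hli2
      haveI : FiniteDimensional QB (U w ⊓ W0 : Submodule QB ℂ) :=
        Submodule.finiteDimensional_of_le inf_le_left
      have := h3.fintype_card_le_finrank
      rwa [Fintype.card_fin] at this
    omega
  · intro S x b c hx hb hb0 hc hxE
    have hbV := span_of_Comb hb
    have hcV := span_of_Comb hc
    have hb0' : (b : ℂ) ≠ 0 := by exact_mod_cast hb0
    -- restriction of the index type
    have key : ∀ d : ℝ, d ∈ Comb v → IsAlgebraic ℚ ((∏ s ∈ S, α s ^ (x s / b)) * Real.exp (d / b)) →
        ∀ s ∈ S, IsAlgebraic ℚ (x s / b) := by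
      intro d hd halg
      set z : ℝ := ∑ s ∈ S, (x s / b) * Real.log (α s) + d / b with hz
      have hzL : (z : ℂ) ∈ Lt := by
        apply Lt_log
        rw [← Complex.ofReal_exp, hz, Real.exp_add, ← prod_eq α h0 S (fun s => x s / b)]
        exact alg_ofReal halg
      set z' : ℝ := ∑ s ∈ S.filter (fun s => s ∉ E), (x s / b) * Real.log (α s) + d / b with hz'
      have hzz : z' = z - ∑ s ∈ S.filter (fun s => s ∈ E), (x s / b) * Real.log (α s) := by
        rw [hz, hz', ← sum_filter_add_sum_filter_not S (fun s => s ∈ E)]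
        ring
      have hzL' : (z' : ℂ) ∈ Lt := by
        rw [hzz]
        push_cast
        refine Lt.sub_mem hzL (Lt.sum_mem fun s hs => ?_)
        have hs' := mem_filter.mp hs
        have h3 := alg_ofReal (hxE s hs'.1 hs'.2)
        push_cast at h3
        exact Lt_mul h3 (Lt_log (hl s))
      have hrel : ∑ s ∈ S.filter (fun s => s ∉ E), (x s : ℂ) * ((Real.log (α s) : ℝ) : ℂ) +
          (d : ℂ) = (b : ℂ) * (z' : ℂ) := by
        have : ∑ s ∈ S.filter (fun s => s ∉ E), x s * Real.log (α s) + d = b * z' := by
          rw [hz', mul_add, mul_sum]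
          congr 1
          · refine sum_congr rfl fun s _ => ?_
            field_simp
          · field_simp
        exact_mod_cast congrArg (fun r : ℝ => (r : ℂ)) this
      let S' : Finset {s // s ∉ E} := S.subtype (fun s => s ∉ E)
      have hmap : S'.map (Function.Embedding.subtype _) = S.filter (fun s => s ∉ E) := by
        rw [Finset.subtype_map]
      have h1 := relation w (fun s : {s // s ∉ E} => ((Real.log (α s) : ℝ) : ℂ))
        (fun s => Lt_log (hl s)) W0 one_mem_W0 hind S' (fun s => (x s : ℂ)) (by
          intro s hs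
          rw [hwspan]
          apply span_of_Comb
          apply hx
          exact (Finset.mem_subtype.mp hs)) (b : ℂ) (d : ℂ) (z' : ℂ)
        (by rw [hwspan]; exact hbV) (by rw [hwspan]; exact span_of_Comb hd) hb0' hzL' (by
          rw [← hrel]
          congr 1
          conv_rhs => rw [← hmap]
          rw [sum_map]
          rfl)
      intro s hs
      by_cases hsE : s ∈ E
      · exact hxE s hs hsE
      · have h2 := h1 ⟨s, hsE⟩ (Finset.mem_subtype.mpr hs)
        apply alg_of_ofReal
        push_cast
        exact h2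
    refine ⟨?_, ?_⟩
    · rintro ⟨s, hs, htr⟩ halg
      exact htr (key c hc halg s hs)
    · rintro ⟨s, hs, hirr⟩ halg
      have hz0 : (0 : ℝ) ∈ Comb v := ⟨0, fun _ => isAlgebraic_zero, by simp⟩
      have hal := key 0 hz0 (by rw [zero_div, Real.exp_zero, mul_one]; exact halg)
      refine rational_of_log (fun s => Real.log (α s)) hl hli S (fun s => x s / b) hal ?_ s hs hirr
      rw [← Complex.ofReal_exp, ← prod_eq α h0 S (fun s => x s / b)]
      exact alg_ofReal halg

end Pool.Agent.X139.BT
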