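import Pool.Agent.X139.BT.Main
import Pool.Agent.X139.BT.Fix

/-!
# Baker's theorem with exponents in a fixed finite dimensional space
-/

set_option autoImplicit false

namespace Pool.Agent.X139.BT

open Module Finset
open Pool.Agent.H301R2.SSE (QB mem_QB Lt Lt_rep Lt_mul Lt_alg Lt_log Lt_one)
open Pool.Agent.W254.HP (hyperplane opt_indep)

theorem Lt_pi : (Real.pi : ℂ) ∈ Lt := by
  have h2 : (Real.pi : ℂ) = -Complex.I * ((Real.pi : ℂ) * Complex.I) := by
    linear_combination (Real.pi : ℂ) * Complex.I_mul_I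
  rw [h2]
  apply Lt_mul Complex.isIntegral_rat_I.isAlgebraic.neg
  apply Lt_log
  rw [Complex.exp_pi_mul_I]
  exact isAlgebraic_one.neg

/-- Baker's theorem: logarithms modulo `1` -/
theorem indep_W1 {ι : Type} (l : ι → ℝ) (hl : ∀ s, IsAlgebraic ℚ (Complex.exp (l s)))
    (hli : LinearIndependent ℚ l) : LinearIndependent QB (fun s => W1.mkQ (l s : ℂ)) := by
  classical
  have hli' : LinearIndependent ℚ (fun s => (l s : ℂ)) := by
    have h2 := hli.map' (Algebra.linearMap ℝ ℂ |>.restrictScalars ℚ) (by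
      rw [LinearMap.ker_eq_bot]
      exact (algebraMap ℝ ℂ).injective)
    exact h2
  have hB := opt_indep (fun s => (l s : ℂ)) hl hli'
  rw [linearIndependent_iff'] at hB ⊢
  intro S g hg s hs
  have h1 : ∑ s ∈ S, g s • (l s : ℂ) ∈ W1 := by
    rw [← Submodule.ker_mkQ W1, LinearMap.mem_ker, map_sum, ← hg]
    exact sum_congr rfl fun i _ => map_smul _ _ _
  unfold W1 at h1
  obtain ⟨a, ha⟩ := Submodule.mem_span_singleton.mp h1
  have h2 := hB (insert none (S.map Function.Embedding.some))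
    (fun o => o.elim (-a) (fun s => g s)) (by
      rw [sum_insert (by simp), sum_map]
      simp only [Option.elim_none, Option.elim_some, Function.Embedding.some_apply]
      rw [← ha, neg_smul, neg_add_cancel]) (some s)
    (mem_insert_of_mem (mem_map_of_mem _ hs))
  exact h2

theorem main2 {N : ℕ} (v : Fin N → ℝ) (h1 : 1 ∈ Comb v) {ι : Type} (α : ι → ℝ)
    (h0 : ∀ s, 0 < α s) (ha : ∀ s, IsAlgebraic ℚ (α s))
    (hli : LinearIndependent ℚ (fun s => Real.log (α s))) :
    ∃ E : Finset ι, E.card ≤ N * (N - 1) ∧ (Real.pi ∈ Comb v → E.card + 1 ≤ N * (N - 1)) ∧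
      ∀ (S : Finset ι) (x : ι → ℝ) (c : ℝ), (∀ s ∈ S, x s ∈ Comb v) →
        c ∈ Comb v → (∀ s ∈ S, s ∈ E → IsAlgebraic ℚ (x s)) →
        ((∃ s ∈ S, Transcendental ℚ (x s)) →
          Transcendental ℚ ((∏ s ∈ S, α s ^ x s) * Real.exp c)) ∧
        ((∃ s ∈ S, Irrational (x s)) → Transcendental ℚ (∏ s ∈ S, α s ^ x s)) := by
  classical
  set V : Submodule QB ℂ := Submodule.span QB (Set.range fun k => (v k : ℂ)) with hV
  haveI : FiniteDimensional QB V := FiniteDimensional.span_of_finite QB (Set.finite_range _)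
  have hMN : finrank QB V ≤ N := by
    have := finrank_range_le_card (R := QB) (fun k : Fin N => (v k : ℂ))
    rwa [Fintype.card_fin] at this
  have h1V : (1 : ℂ) ∈ V := by
    have := span_of_Comb h1
    rwa [Complex.ofReal_one] at this
  have hl : ∀ s, IsAlgebraic ℚ (Complex.exp ((Real.log (α s) : ℝ) : ℂ)) := fun s =>
    exp_log_alg (h0 s) (ha s)
  obtain ⟨E, hE, hE', hrel⟩ := relation1 V h1V (fun s => ((Real.log (α s) : ℝ) : ℂ))
    (fun s => Lt_log (hl s)) (indep_W1 (fun s => Real.log (α s)) hl hli)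
  have hmono : finrank QB V * (finrank QB V - 1) ≤ N * (N - 1) :=
    Nat.mul_le_mul hMN (Nat.sub_le_sub_right hMN 1)
  refine ⟨E, by omega, ?_, ?_⟩
  · intro hpi
    have := hE' ⟨(Real.pi : ℂ), span_of_Comb hpi, Lt_pi,
      Pool.Agent.H340R2.LW.transcendental_pi_complex⟩
    omega
  · intro S x c hx hc hxE
    have key : ∀ d : ℝ, d ∈ Comb v → IsAlgebraic ℚ ((∏ s ∈ S, α s ^ x s) * Real.exp d) →
        ∀ s ∈ S, IsAlgebraic ℚ (x s) := by
      intro d hd halg s hs
      by_cases hsE : s ∈ E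
      · exact hxE s hs hsE
      apply alg_of_ofReal
      set z : ℝ := ∑ s ∈ S, x s * Real.log (α s) + d with hz
      have hzL : (z : ℂ) ∈ Lt := by
        apply Lt_log
        rw [← Complex.ofReal_exp, hz, Real.exp_add, ← prod_eq α h0 S x]
        exact alg_ofReal halg
      set z' : ℝ := ∑ s ∈ S.filter (fun s => s ∉ E), x s * Real.log (α s) + d with hz'
      have hzz : z' = z - ∑ s ∈ S.filter (fun s => s ∈ E), x s * Real.log (α s) := by
        rw [hz, hz', ← sum_filter_add_sum_filter_not S (fun s => s ∈ E)]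
        ring
      have hzL' : (z' : ℂ) ∈ Lt := by
        rw [hzz]
        push_cast
        refine Lt.sub_mem hzL (Lt.sum_mem fun s hs => ?_)
        have hs' := mem_filter.mp hs
        exact Lt_mul (alg_ofReal (hxE s hs'.1 hs'.2)) (Lt_log (hl s))
      refine hrel (S.filter (fun s => s ∉ E)) ?_ (fun s => (x s : ℂ)) (d : ℂ)
        (z' : ℂ) (fun s hs => span_of_Comb (hx s (mem_filter.mp hs).1))
        (span_of_Comb hd) hzL' ?_ s (mem_filter.mpr ⟨hs, hsE⟩)
      · rw [Finset.disjoint_left]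
        intro s hs hE
        exact (mem_filter.mp hs).2 hE
      · rw [hz']
        push_cast
        rfl
    refine ⟨?_, ?_⟩
    · rintro ⟨s, hs, htr⟩ halg
      exact htr (key c hc halg s hs)
    · rintro ⟨s, hs, hirr⟩ halg
      have hz0 : (0 : ℝ) ∈ Comb v := ⟨0, fun _ => isAlgebraic_zero, by simp⟩
      have hal := key 0 hz0 (by rw [Real.exp_zero, mul_one]; exact halg)
      refine rational_of_log (fun s => Real.log (α s)) hl hli S x hal ?_ s hs hirr
      rw [← Complex.ofReal_exp, ← prod_eq α h0 S x]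
      exact alg_ofReal halg

theorem mem_Comb {N : ℕ} (v : Fin N → ℝ) (k : Fin N) : v k ∈ Comb v := by
  classical
  refine ⟨fun j => if j = k then 1 else 0, fun j => ?_, ?_⟩
  · dsimp only
    split_ifs
    · exact isAlgebraic_one
    · exact isAlgebraic_zero
  · simp

theorem log_primes : LinearIndependent ℚ (fun p : Nat.Primes => Real.log ((p : ℕ) : ℝ)) := by
  have h := Pool.Agent.W254.HP.log_primes_indep
  apply LinearIndependent.of_comp (Algebra.linearMap ℝ ℂ |>.restrictScalars ℚ)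
  exact h

/-- the case of the primes -/
theorem primes_main {N : ℕ} (v : Fin N → ℝ) (h1 : 1 ∈ Comb v) :
    ∃ E : Finset ℕ, E.card ≤ N * (N - 1) ∧ (Real.pi ∈ Comb v → E.card + 1 ≤ N * (N - 1)) ∧
      ∀ (S : Finset ℕ) (x : ℕ → ℝ) (c : ℝ), (∀ p ∈ S, p.Prime) → (∀ p ∈ S, x p ∈ Comb v) →
        c ∈ Comb v → (∀ p ∈ S, p ∈ E → IsAlgebraic ℚ (x p)) →
        ((∃ p ∈ S, Transcendental ℚ (x p)) →
          Transcendental ℚ ((∏ p ∈ S, (p : ℝ) ^ x p) * Real.exp c)) ∧
        ((∃ p ∈ S, Irrational (x p)) → Transcendental ℚ (∏ p ∈ S, (p : ℝ) ^ x p)) := by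
  classical
  obtain ⟨E, hE, hE', h⟩ := main2 v h1 (fun p : Nat.Primes => ((p : ℕ) : ℝ))
    (fun p => by exact_mod_cast p.2.pos) (fun p => isAlgebraic_natCast _) log_primes
  refine ⟨E.map ⟨fun p : Nat.Primes => (p : ℕ), Subtype.val_injective⟩, ?_, ?_, ?_⟩
  · rw [card_map]
    exact hE
  · rw [card_map]
    exact hE'
  · intro S x c hS hx hc hxE
    let S' : Finset Nat.Primes := S.attach.image fun p => ⟨p.1, hS p.1 p.2⟩
    have hS' : ∀ p : Nat.Primes, p ∈ S' ↔ (p : ℕ) ∈ S := by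
      intro p
      simp only [S', mem_image, mem_attach, true_and]
      constructor
      · rintro ⟨q, rfl⟩
        exact q.2
      · intro hp
        exact ⟨⟨p, hp⟩, rfl⟩
    have hmap : S'.map ⟨fun p : Nat.Primes => (p : ℕ), Subtype.val_injective⟩ = S := by
      ext q
      simp only [mem_map, Function.Embedding.coeFn_mk]
      constructor
      · rintro ⟨p, hp, rfl⟩
        exact (hS' p).mp hp
      · intro hq
        exact ⟨⟨q, hS q hq⟩, (hS' _).mpr hq, rfl⟩
    have h2 := h S' (fun p => x p) c (fun p hp => hx p ((hS' p).mp hp)) hc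
      (fun p hp hpE => hxE p ((hS' p).mp hp) (mem_map.mpr ⟨p, hpE, rfl⟩))
    rw [← hmap, prod_map]
    refine ⟨?_, ?_⟩
    · rintro ⟨q, hq, hq'⟩
      obtain ⟨p, hp, rfl⟩ := mem_map.mp hq
      exact h2.1 ⟨p, hp, hq'⟩
    · rintro ⟨q, hq, hq'⟩
      obtain ⟨p, hp, rfl⟩ := mem_map.mp hq
      exact h2.2 ⟨p, hp, hq'⟩

end Pool.Agent.X139.BT
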